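import Mathlib
import Pool.Agent.H82.BisMain

set_option autoImplicit false
open Filter Topology

namespace Pool.Agent.Results.MP_c07108_co.NoExternalBisection

/-- Q2 has a negative answer: for every error term `g` with `g d / d → 0` there is a finite
graph `G` such that in every bisection of `G` some vertex `v` has fewer than
`deg v / 2 - g (deg v)` neighbours in the opposite part. -/
theorem result :
    ∀ g : ℕ → ℝ, Tendsto (fun d : ℕ => g d / (d : ℝ)) atTop (𝓝 0) →
      ∃ (n : ℕ) (G : SimpleGraph (Fin n)) (_ : DecidableRel G.Adj),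
        ∀ A : Finset (Fin n), |((A.card : ℤ) - (Aᶜ.card : ℤ))| ≤ 1 →
          ∃ v : Fin n,
            (((G.neighborFinset v).filter (fun w => ¬ (w ∈ A ↔ v ∈ A))).card : ℝ)
              < (G.degree v : ℝ) / 2 - g (G.degree v) := by
  intro g hg
  by_contra hcon
  refine Pool.Agent.H82.Bis.BP_false g hg
    (Pool.Agent.H82.Bis.BP_of_Hyp (-1) (Or.inr rfl) g (Pool.Agent.H82.Bis.Hyp_of_ext g ?_))
  intro n G _
  by_contra h
  apply hcon
  refine ⟨n, G, inferInstance, ?_⟩
  intro A hA
  by_contra h2
  apply h
  refine ⟨A, hA, ?_⟩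
  intro v
  by_contra h3
  exact h2 ⟨v, not_le.mp h3⟩

end Pool.Agent.Results.MP_c07108_co.NoExternalBisection
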