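import Mathlib

set_option autoImplicit false

open Finset

namespace Pool.Agent.Results.MP_c07108_co.OrientedBisection

/-- Moving a fractional colouring along a direction until a coordinate becomes `1` or `-1`. -/
lemma move {ι : Type} [Fintype ι] [DecidableEq ι] (x z : ι → ℝ) (F : Finset ι)
    (hx : ∀ i, |x i| ≤ 1) (hF : ∀ i, i ∈ F ↔ |x i| < 1) (hz : ∀ i, i ∉ F → z i = 0)
    (hz0 : z ≠ 0) : ∃ l : ℝ, (∀ i, |x i + l * z i| ≤ 1) ∧ ∃ i ∈ F, |x i + l * z i| = 1 := by
  -- the set of admissible steps
  obtain ⟨i₀, hi₀⟩ := Function.ne_iff.mp hz0
  have hi₀F : i₀ ∈ F := by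
    by_contra h
    exact hi₀ (hz i₀ h)
  set Sz : Finset ι := F.filter fun i => z i ≠ 0 with hSz
  have hSzne : Sz.Nonempty := ⟨i₀, mem_filter.mpr ⟨hi₀F, hi₀⟩⟩
  -- step length for coordinate `i`
  set st : ι → ℝ := fun i => (1 - SignType.sign (z i) * x i) / |z i| with hst
  obtain ⟨j, hj, hjmin⟩ := Finset.exists_min_image Sz st hSzne
  have hjF : j ∈ F := (mem_filter.mp hj).1
  have hjz : z j ≠ 0 := (mem_filter.mp hj).2
  have hsgn : ∀ i, z i ≠ 0 → (SignType.sign (z i) : ℝ) * z i = |z i| := by
    intro i _
    exact sign_mul_self (z i)
  have hstpos : ∀ i ∈ Sz, 0 < st i := by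
    intro i hi
    have hiF := (mem_filter.mp hi).1
    have hiz := (mem_filter.mp hi).2
    have h1 : |x i| < 1 := (hF i).mp hiF
    have h2 : 0 < |z i| := abs_pos.mpr hiz
    apply div_pos _ h2
    have h3 := abs_lt.mp h1
    rcases lt_or_gt_of_ne hiz with h | h
    · rw [sign_neg h]; simp; linarith
    · rw [sign_pos h]; simp; linarith
  refine ⟨st j, ?_, j, hjF, ?_⟩
  · intro i
    by_cases hi : i ∈ Sz
    · have hiF := (mem_filter.mp hi).1
      have hiz := (mem_filter.mp hi).2
      have h1 := abs_lt.mp ((hF i).mp hiF)
      have h2 : 0 < |z i| := abs_pos.mpr hiz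
      have h3 := hjmin i hi
      have h4 := hstpos j hj
      have h5 : st j * |z i| ≤ 1 - SignType.sign (z i) * x i := by
        rw [← le_div_iff₀ h2]; exact h3
      rw [abs_le]
      rcases lt_or_gt_of_ne hiz with h | h
      · rw [sign_neg h, abs_of_neg h] at h5
        simp at h5
        constructor
        · nlinarith
        · nlinarith
      · rw [sign_pos h, abs_of_pos h] at h5
        simp at h5
        constructor
        · nlinarith
        · nlinarith
    · have hzi : z i = 0 := by
        by_contra hne
        apply hi
        refine mem_filter.mpr ⟨?_, hne⟩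
        by_contra hiF
        exact hne (hz i hiF)
      rw [hzi, mul_zero, add_zero]
      exact hx i
  · have h2 : 0 < |z j| := abs_pos.mpr hjz
    rcases lt_or_gt_of_ne hjz with h | h
    · have : x j + st j * z j = -1 := by
        simp only [hst]
        rw [sign_neg h, abs_of_neg h]
        have : z j ≠ 0 := hjz
        simp
        field_simp
        ring
      rw [this]; simp
    · have : x j + st j * z j = 1 := by
        simp only [hst]
        rw [sign_pos h, abs_of_pos h]
        have : z j ≠ 0 := hjz
        simp
        field_simp
        ring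
      rw [this]; simp

/-- A local form of the Beck-Fiala theorem which also keeps the total sum: rounding a fractional
colouring with sum zero. -/
lemma beckFiala {ι κ : Type} [Fintype ι] [DecidableEq ι] [Fintype κ] [DecidableEq κ]
    (S : κ → Finset ι) (t : κ → ℕ) (ht : ∀ a, 0 < t a)
    (hdeg : ∀ a, ∀ i ∈ S a, (univ.filter fun a => i ∈ S a).card ≤ t a) :
    ∀ (f : ℕ) (x : ι → ℝ), (∀ i, |x i| ≤ 1) → ∑ i, x i = 0 →
      (univ.filter fun i => |x i| < 1).card = f →
      ∃ y : ι → ℝ, (∀ i, y i = 1 ∨ y i = -1) ∧ (∀ i, |x i| = 1 → y i = x i) ∧
        |∑ i, y i| < 2 ∧ ∀ a, |∑ i ∈ S a, y i - ∑ i ∈ S a, x i| < 4 * t a := by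
  intro f
  induction f using Nat.strong_induction_on with
  | _ f ih =>
    intro x hx hx0 hf
    set F := univ.filter fun i => |x i| < 1 with hFdef
    have hFmem : ∀ i, i ∈ F ↔ |x i| < 1 := by intro i; simp [hFdef]
    have hFnot : ∀ i, i ∉ F → |x i| = 1 := by
      intro i hiF
      refine le_antisymm (hx i) ?_
      by_contra hcon
      exact hiF ((hFmem i).mpr (not_le.mp hcon))
    -- the final estimate for a set with few floating elements
    have hlocal : ∀ y : ι → ℝ, (∀ i, y i = 1 ∨ y i = -1) → (∀ i, |x i| = 1 → y i = x i) →
        ∀ a, (S a ∩ F).card ≤ 2 * t a →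
          |∑ i ∈ S a, y i - ∑ i ∈ S a, x i| < 4 * t a := by
      intro y hy1 hfix a hsmall
      have hta : (0 : ℝ) < t a := by exact_mod_cast ht a
      have h1 : ∑ i ∈ S a, y i - ∑ i ∈ S a, x i = ∑ i ∈ S a ∩ F, (y i - x i) := by
        rw [← Finset.sum_sub_distrib, ← Finset.sum_inter_add_sum_sdiff (S a) F]
        have h2 : ∑ i ∈ S a \ F, (y i - x i) = 0 := by
          refine Finset.sum_eq_zero fun i hi => ?_
          rw [hfix i (hFnot i (mem_sdiff.mp hi).2), sub_self]
        rw [h2, add_zero]
      rw [h1]
      rcases (S a ∩ F).eq_empty_or_nonempty with he | hne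
      · rw [he, sum_empty, abs_zero]; positivity
      · calc |∑ i ∈ S a ∩ F, (y i - x i)| ≤ ∑ i ∈ S a ∩ F, |y i - x i| :=
              Finset.abs_sum_le_sum_abs _ _
          _ < ∑ _i ∈ S a ∩ F, (2 : ℝ) := by
              refine Finset.sum_lt_sum_of_nonempty hne fun i hi => ?_
              have h3 := abs_lt.mp ((hFmem i).mp (mem_inter.mp hi).2)
              rw [abs_lt]
              rcases hy1 i with h | h <;> rw [h] <;> constructor <;> linarith
          _ = (S a ∩ F).card * 2 := by rw [sum_const, nsmul_eq_mul]
          _ ≤ 4 * t a := by
              have : ((S a ∩ F).card : ℝ) ≤ 2 * t a := by exact_mod_cast hsmall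
              linarith
    -- rounding when at most two elements float
    have hend : ∀ y : ι → ℝ, (∀ i, y i = 1 ∨ y i = -1) → (∀ i, |x i| = 1 → y i = x i) →
        |∑ i ∈ F, (y i - x i)| < 2 → F.card ≤ 2 →
        ∃ y : ι → ℝ, (∀ i, y i = 1 ∨ y i = -1) ∧ (∀ i, |x i| = 1 → y i = x i) ∧
        |∑ i, y i| < 2 ∧ ∀ a, |∑ i ∈ S a, y i - ∑ i ∈ S a, x i| < 4 * t a := by
      intro y hy1 hfix hsum hF2
      refine ⟨y, hy1, hfix, ?_, fun a => hlocal y hy1 hfix a ?_⟩
      · have h1 : ∑ i, y i = ∑ i ∈ F, (y i - x i) := by
          have h2 : ∑ i, y i = ∑ i, (y i - x i) := by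
            rw [Finset.sum_sub_distrib, hx0, sub_zero]
          rw [h2]
          symm
          refine Finset.sum_subset (subset_univ _) fun i _ hiF => ?_
          rw [hfix i (hFnot i hiF), sub_self]
        rw [h1]; exact hsum
      · have h1 : (S a ∩ F).card ≤ F.card := card_le_card inter_subset_right
        have := ht a
        omega
    have hpm : ∀ i, i ∉ F → x i = 1 ∨ x i = -1 := fun i hi => eq_or_eq_neg_of_abs_eq (hFnot i hi)
    rcases Nat.lt_or_ge f 3 with hf3 | hf3
    · interval_cases f
      · have hFe : F = ∅ := by rw [← card_eq_zero, hf]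
        refine hend x (fun i => hpm i (by rw [hFe]; simp)) (fun _ _ => rfl) ?_ (by omega)
        rw [hFe, sum_empty, abs_zero]; norm_num
      · obtain ⟨i, hi⟩ := card_eq_one.mp hf
        refine hend (Function.update x i 1) ?_ ?_ ?_ (by omega)
        · intro j
          by_cases hj : j = i
          · subst hj; left; simp
          · rw [Function.update_of_ne hj]
            exact hpm j (by rw [hi]; simpa using hj)
        · intro j hj
          by_cases hji : j = i
          · subst hji
            have : j ∈ F := by rw [hi]; simp
            rw [hFmem, hj] at this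
            exact absurd this (lt_irrefl _)
          · rw [Function.update_of_ne hji]
        · rw [hi, sum_singleton, Function.update_self]
          have : i ∈ F := by rw [hi]; simp
          have h3 := abs_lt.mp ((hFmem i).mp this)
          rw [abs_lt]
          constructor <;> linarith
      · obtain ⟨i, j, hij, hFij⟩ := card_eq_two.mp hf
        refine hend (Function.update (Function.update x i 1) j (-1)) ?_ ?_ ?_ (by omega)
        · intro l
          by_cases hlj : l = j
          · subst hlj; right; simp
          · rw [Function.update_of_ne hlj]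
            by_cases hli : l = i
            · subst hli; left; simp
            · rw [Function.update_of_ne hli]
              exact hpm l (by rw [hFij]; simp [hli, hlj])
        · intro l hl
          have hlF : l ∉ F := by rw [hFmem, hl]; exact lt_irrefl _
          rw [hFij] at hlF
          simp only [mem_insert, mem_singleton, not_or] at hlF
          rw [Function.update_of_ne hlF.2, Function.update_of_ne hlF.1]
        · rw [hFij, sum_pair hij, Function.update_self, Function.update_of_ne hij,
            Function.update_self]
          have h3 := abs_lt.mp ((hFmem i).mp (by rw [hFij]; simp))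
          have h4 := abs_lt.mp ((hFmem j).mp (by rw [hFij]; simp))
          rw [abs_lt]
          constructor <;> linarith
    · -- the active sets
      set Act : Finset κ := univ.filter fun a => 2 * t a ≤ (S a ∩ F).card with hAct
      have hcount : (Act.card : ℝ) * 2 ≤ f := by
        calc (Act.card : ℝ) * 2 = ∑ _a ∈ Act, (2 : ℝ) := by rw [sum_const, nsmul_eq_mul]
          _ ≤ ∑ a ∈ Act, ∑ i ∈ S a ∩ F, (1 : ℝ) / t a := by
              refine Finset.sum_le_sum fun a ha => ?_
              have h1 := (mem_filter.mp ha).2
              have hta : (0 : ℝ) < t a := by exact_mod_cast ht a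
              rw [sum_const, nsmul_eq_mul, mul_one_div, le_div_iff₀ hta]
              exact_mod_cast h1
          _ ≤ ∑ a : κ, ∑ i ∈ S a ∩ F, (1 : ℝ) / t a :=
              Finset.sum_le_sum_of_subset_of_nonneg (subset_univ _) fun _ _ _ =>
                Finset.sum_nonneg fun _ _ => by positivity
          _ = ∑ a : κ, ∑ i ∈ F, (if i ∈ S a then (1 : ℝ) / t a else 0) := by
              refine Finset.sum_congr rfl fun a _ => ?_
              rw [Finset.sum_ite_mem, inter_comm]
          _ = ∑ i ∈ F, ∑ a : κ, (if i ∈ S a then (1 : ℝ) / t a else 0) := Finset.sum_comm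
          _ ≤ ∑ _i ∈ F, (1 : ℝ) := by
              refine Finset.sum_le_sum fun i _ => ?_
              set di := (univ.filter fun a => i ∈ S a).card with hdi
              rcases Nat.eq_zero_or_pos di with h0 | h0
              · have he : (univ.filter fun a => i ∈ S a) = ∅ := card_eq_zero.mp h0
                have h2 : ∀ a, i ∉ S a := by
                  intro a ha
                  have : a ∈ univ.filter fun a => i ∈ S a := mem_filter.mpr ⟨mem_univ _, ha⟩
                  rw [he] at this
                  simp at this
                refine le_trans (le_of_eq (Finset.sum_eq_zero fun a _ => ?_)) zero_le_one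
                rw [if_neg (h2 a)]
              · have hd0 : (0 : ℝ) < di := by exact_mod_cast h0
                calc ∑ a : κ, (if i ∈ S a then (1 : ℝ) / t a else 0)
                    ≤ ∑ a : κ, (if i ∈ S a then (1 : ℝ) / di else 0) := by
                      refine Finset.sum_le_sum fun a _ => ?_
                      split_ifs with h
                      · apply one_div_le_one_div_of_le hd0
                        exact_mod_cast hdeg a i h
                      · exact le_refl _
                  _ = 1 := by
                      rw [← Finset.sum_filter, sum_const, nsmul_eq_mul, ← hdi]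
                      field_simp
          _ = f := by rw [sum_const, nsmul_eq_mul, mul_one, hf]
      have hcount' : Act.card * 2 ≤ f := by exact_mod_cast hcount
      have hActlt : Act.card + 1 < f := by omega
      -- a nonzero direction
      obtain ⟨z, hz0, hzF, hzA, hzt⟩ : ∃ z : ι → ℝ, z ≠ 0 ∧ (∀ i, i ∉ F → z i = 0) ∧
          (∀ a ∈ Act, ∑ i ∈ S a, z i = 0) ∧ ∑ i, z i = 0 := by
        let T : (F → ℝ) →ₗ[ℝ] (Option Act → ℝ) :=
          { toFun := fun w a => match a with
              | none => ∑ i : F, w i
              | some a => ∑ i : F, if (i : ι) ∈ S a then w i else 0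
            map_add' := by
              intro u v
              funext a
              rcases a with _ | a
              · simp only [Pi.add_apply]
                rw [← Finset.sum_add_distrib]
              · simp only [Pi.add_apply]
                rw [← Finset.sum_add_distrib]
                refine Finset.sum_congr rfl fun i _ => ?_
                split_ifs <;> simp
            map_smul' := by
              intro c v
              funext a
              rcases a with _ | a
              · simp only [Pi.smul_apply, smul_eq_mul, RingHom.id_apply]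
                rw [Finset.mul_sum]
              · simp only [Pi.smul_apply, smul_eq_mul, RingHom.id_apply]
                rw [Finset.mul_sum]
                refine Finset.sum_congr rfl fun i _ => ?_
                split_ifs <;> simp }
        have hker : LinearMap.ker T ≠ ⊥ := by
          apply LinearMap.ker_ne_bot_of_finrank_lt
          rw [Module.finrank_fintype_fun_eq_card, Module.finrank_fintype_fun_eq_card,
            Fintype.card_option, Fintype.card_coe, Fintype.card_coe, hf]
          exact hActlt
        obtain ⟨w, hw, hw0⟩ := Submodule.exists_mem_ne_zero_of_ne_bot hker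
        refine ⟨fun i => if h : i ∈ F then w ⟨i, h⟩ else 0, ?_, ?_, ?_, ?_⟩
        · intro h0
          apply hw0
          funext i
          have := congrFun h0 (i : ι)
          simp only [i.2, dif_pos, Pi.zero_apply] at this
          exact this
        · intro i hi
          exact dif_neg hi
        · intro a ha
          have h1 := congrFun (LinearMap.mem_ker.mp hw) (some ⟨a, ha⟩)
          have h2 : ∑ i : F, (if (i : ι) ∈ S a then w i else 0) = 0 := h1
          refine Eq.trans ?_ h2
          have h3 : ∑ i : F, (if (i : ι) ∈ S a then w i else 0) =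
              ∑ i ∈ F, if i ∈ S a then (if h : i ∈ F then w ⟨i, h⟩ else 0) else 0 := by
            rw [← Finset.sum_coe_sort F]
            refine Finset.sum_congr rfl fun i _ => ?_
            simp
          rw [h3, Finset.sum_ite_mem, inter_comm]
          have h5 := Finset.sum_inter_add_sum_sdiff (S a) F
            (fun i => if h : i ∈ F then w ⟨i, h⟩ else 0)
          have h4 : ∑ i ∈ S a \ F, (if h : i ∈ F then w ⟨i, h⟩ else 0) = 0 := by
            refine Finset.sum_eq_zero fun i hi => ?_
            rw [dif_neg (mem_sdiff.mp hi).2]
          rw [h4, add_zero] at h5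
          exact h5.symm
        · have h1 := congrFun (LinearMap.mem_ker.mp hw) none
          have h2 : ∑ i : F, w i = 0 := h1
          refine Eq.trans ?_ h2
          have h3 : ∑ i : F, w i =
              ∑ i ∈ F, (if h : i ∈ F then w ⟨i, h⟩ else 0) := by
            rw [← Finset.sum_coe_sort F]
            refine Finset.sum_congr rfl fun i _ => ?_
            simp
          rw [h3]
          symm
          refine Finset.sum_subset (subset_univ _) fun i _ hi => ?_
          exact dif_neg hi
      obtain ⟨l, hl1, j, hjF, hj1⟩ := move x z F hx hFmem hzF hz0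
      -- the moved colouring
      set x' : ι → ℝ := fun i => x i + l * z i with hx'
      have hsub : (univ.filter fun i => |x' i| < 1) ⊂ F := by
        refine ⟨?_, ?_⟩
        · intro i hi
          have hi' := (mem_filter.mp hi).2
          by_contra hiF
          simp only [hx', hzF i hiF, mul_zero, add_zero] at hi'
          exact hiF ((hFmem i).mpr hi')
        · intro hcon
          have := (mem_filter.mp (hcon hjF)).2
          simp only [hx'] at this
          rw [hj1] at this
          exact lt_irrefl _ this
      have hcard' : (univ.filter fun i => |x' i| < 1).card < f := by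
        rw [← hf]; exact card_lt_card hsub
      have hx'0 : ∑ i, x' i = 0 := by
        simp only [hx']
        rw [Finset.sum_add_distrib, ← Finset.mul_sum, hzt, hx0, mul_zero, add_zero]
      obtain ⟨y, hy1, hy2, hyt, hy3⟩ := ih _ hcard' x' hl1 hx'0 rfl
      have hfix : ∀ i, |x i| = 1 → y i = x i := by
        intro i hi
        have hiF : i ∉ F := by
          rw [hFmem, hi]; exact lt_irrefl _
        have h1 : x' i = x i := by simp only [hx', hzF i hiF, mul_zero, add_zero]
        rw [← h1]
        apply hy2
        rw [h1]; exact hi
      refine ⟨y, hy1, hfix, hyt, ?_⟩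
      intro a
      by_cases ha : a ∈ Act
      · have h1 : ∑ i ∈ S a, x' i = ∑ i ∈ S a, x i := by
          simp only [hx']
          rw [Finset.sum_add_distrib, ← Finset.mul_sum, hzA a ha, mul_zero, add_zero]
        rw [← h1]
        exact hy3 a
      · refine hlocal y hy1 hfix a ?_
        by_contra hcon
        exact ha (mem_filter.mpr ⟨mem_univ _, (not_le.mp hcon).le⟩)

/-- Let `o` be any set of directed edges (`u → v` if `G.Adj u v` and `o u v`) of a finite graph
`G`, and let `t v` bound the out-degrees of all in-neighbours of `v`. Then `G` has a bisection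
`A`, `Aᶜ` such that every vertex `v` has at least `d⁻(v) / 2 - 2 t(v)` neighbours in each part. -/
theorem result (n : ℕ) (G : SimpleGraph (Fin n)) [DecidableRel G.Adj]
    (o : Fin n → Fin n → Prop) [DecidableRel o] (t : Fin n → ℕ)
    (ht : ∀ u v, G.Adj u v → o u v → ((G.neighborFinset u).filter fun w => o u w).card ≤ t v) :
    ∃ A : Finset (Fin n), |(A.card : ℤ) - (Aᶜ.card : ℤ)| ≤ 1 ∧
      ∀ v : Fin n,
        (((G.neighborFinset v).filter fun u => o u v).card : ℝ) / 2 - 2 * t v ≤
          ((G.neighborFinset v ∩ A).card : ℝ) ∧
        (((G.neighborFinset v).filter fun u => o u v).card : ℝ) / 2 - 2 * t v ≤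
          ((G.neighborFinset v ∩ Aᶜ).card : ℝ) := by
  classical
  -- the set system
  set S : Fin n → Finset (Fin n) := fun v => (G.neighborFinset v).filter fun u => o u v with hS
  have hSmem : ∀ v u, u ∈ S v ↔ G.Adj u v ∧ o u v := by
    intro v u
    simp only [hS, mem_filter, SimpleGraph.mem_neighborFinset]
    rw [G.adj_comm]
  have hdegeq : ∀ i, (univ.filter fun a => i ∈ S a) =
      (G.neighborFinset i).filter fun w => o i w := by
    intro i
    ext a
    simp only [mem_filter, mem_univ, true_and, hSmem, SimpleGraph.mem_neighborFinset]
  set t' : Fin n → ℕ := fun v => max 1 (t v) with ht'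
  obtain ⟨y, hy1, -, hyt, hy3⟩ := beckFiala S t' (fun a => by simp [ht'])
    (by
      intro a i hi
      rw [hdegeq]
      have h1 := (hSmem a i).mp hi
      exact (ht i a h1.1 h1.2).trans (le_max_right _ _)) _ (fun _ => 0)
    (by intro i; simp) (by simp) rfl
  -- integer version of the discrepancy bounds
  set A : Finset (Fin n) := univ.filter fun i => y i = 1 with hA
  have hyA : ∀ i, y i = 2 * (if i ∈ A then (1 : ℝ) else 0) - 1 := by
    intro i
    rcases hy1 i with h | h
    · have : i ∈ A := by simp [hA, h]
      rw [if_pos this, h]; norm_num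
    · have : i ∉ A := by
        simp only [hA, mem_filter, mem_univ, true_and, h]
        norm_num
      rw [if_neg this, h]; norm_num
  have hsum : ∀ X : Finset (Fin n), ∑ i ∈ X, y i = ((X ∩ A).card : ℝ) - ((X ∩ Aᶜ).card : ℝ) := by
    intro X
    have h2 : ((X ∩ Aᶜ).card : ℝ) + ((X ∩ A).card : ℝ) = (X.card : ℝ) := by
      have := Finset.card_sdiff_add_card_inter X A
      rw [Finset.sdiff_eq_inter_compl] at this
      exact_mod_cast this
    simp_rw [hyA]
    rw [Finset.sum_sub_distrib, ← Finset.mul_sum, Finset.sum_ite_mem, sum_const, sum_const]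
    simp only [nsmul_eq_mul, mul_one]
    linarith
  refine ⟨A, ?_, ?_⟩
  · rw [hsum univ, univ_inter, univ_inter] at hyt
    have h1 : |(A.card : ℤ) - (Aᶜ.card : ℤ)| < 2 := by
      have h4 : ((|(A.card : ℤ) - (Aᶜ.card : ℤ)| : ℤ) : ℝ) < ((2 : ℤ) : ℝ) := by
        push_cast
        exact hyt
      exact_mod_cast h4
    omega
  · intro v
    have hSvsub : S v ⊆ G.neighborFinset v := filter_subset _ _
    have hcA : ((S v ∩ A).card : ℝ) ≤ ((G.neighborFinset v ∩ A).card : ℝ) := by
      exact_mod_cast card_le_card (inter_subset_inter_right hSvsub)
    have hcA' : ((S v ∩ Aᶜ).card : ℝ) ≤ ((G.neighborFinset v ∩ Aᶜ).card : ℝ) := by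
      exact_mod_cast card_le_card (inter_subset_inter_right hSvsub)
    have h2 : ((S v ∩ Aᶜ).card : ℝ) + ((S v ∩ A).card : ℝ) = ((S v).card : ℝ) := by
      have := Finset.card_sdiff_add_card_inter (S v) A
      rw [Finset.sdiff_eq_inter_compl] at this
      exact_mod_cast this
    change ((S v).card : ℝ) / 2 - 2 * t v ≤ _ ∧ ((S v).card : ℝ) / 2 - 2 * t v ≤ _
    rcases (S v).eq_empty_or_nonempty with he | hne
    · rw [he]
      simp only [card_empty, Nat.cast_zero, zero_div, zero_sub]
      have : (0 : ℝ) ≤ t v := by positivity
      constructor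
      · refine le_trans ?_ (Nat.cast_nonneg _)
        linarith
      · refine le_trans ?_ (Nat.cast_nonneg _)
        linarith
    · obtain ⟨u, hu⟩ := hne
      have h3 := (hSmem v u).mp hu
      have h4 : 1 ≤ t v := by
        refine le_trans ?_ (ht u v h3.1 h3.2)
        rw [Nat.one_le_iff_ne_zero]
        intro h0
        rw [card_eq_zero] at h0
        have : v ∈ (G.neighborFinset u).filter fun w => o u w := by
          rw [mem_filter, SimpleGraph.mem_neighborFinset]
          exact h3
        rw [h0] at this
        simp at this
      have h5 : t' v = t v := by simp only [ht']; omega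
      have h6 := hy3 v
      rw [h5, hsum, sum_const_zero, sub_zero] at h6
      have h7 := abs_lt.mp h6
      constructor <;> linarith

end Pool.Agent.Results.MP_c07108_co.OrientedBisection
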